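import Mathlib
import Pool.Agent.H47.Tree3

namespace Pool.Agent.Results.MP_3f42a7_lc.Omissible
open Pool.Agent.H47.TreeDefs Pool.Agent.H47.Tree3

theorem result (α β γ : Fm) (h1 : Disjoint (letters β) (letters α))
    (h2 : Disjoint (letters β) (letters γ))
    (h : Acceptable (.imp (.and α β) γ) ∨ Acceptable (.imp α (.or β γ))) :
    Acceptable (.imp α γ) := by
  let s : ℕ → Bool := fun n => n ∈ letters β
  have a := old s α fun n hn => by simpa [s] using Finset.disjoint_right.1 h1 hn
  have c := old s γ fun n hn => by simpa [s] using Finset.disjoint_right.1 h2 hn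
  have b := new s β fun n hn => by simpa [s] using hn
  rcases h with h | h
  · have := main h s false
    rw [V, b.1] at this
    exact e_trans (e_ani (v := .top) (a _).1 trivial) (e_trans this (c _).2)
  · have := main h s true
    rw [V, b.2] at this
    exact e_trans (a _).1 (e_trans this (c _).2)

end Pool.Agent.Results.MP_3f42a7_lc.Omissible
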